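import Mathlib

/-!
Signed subcubic graphs of girth at least five: a minimum signature has at most `3 n / 10`
negative edges.  A signature is given by the signed adjacency matrix `w`.
-/

set_option autoImplicit false
set_option linter.unusedSectionVars false
set_option linter.unusedVariables false

namespace Pool.Agent.H78.Frus

open Finset

variable {V : Type*} [Fintype V] [DecidableEq V]

/-- the sum of all entries -/
def T (w : V → V → ℤ) : ℤ := ∑ x, ∑ y, w x y

/-- the row sum -/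
def W (w : V → V → ℤ) (x : V) : ℤ := ∑ y, w x y

/-- switching at the vertex `a` -/
def flip (w : V → V → ℤ) (a : V) : V → V → ℤ := fun x y =>
  w x y * ((if x = a then -1 else 1) * (if y = a then -1 else 1))

/-- switching equivalence -/
def Eqv (w w' : V → V → ℤ) : Prop :=
  ∃ χ : V → ℤ, (∀ v, χ v = 1 ∨ χ v = -1) ∧ ∀ x y, w' x y = w x y * (χ x * χ y)

structure Basic (G : SimpleGraph V) (w : V → V → ℤ) : Prop where
  symm : ∀ x y, w x y = w y x
  adj : ∀ x y, w x y ≠ 0 ↔ G.Adj x y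
  val : ∀ x y, w x y = 0 ∨ w x y = 1 ∨ w x y = -1

structure Mini (G : SimpleGraph V) (w : V → V → ℤ) : Prop extends Basic G w where
  mini : ∀ w', Eqv w w' → T w' ≤ T w

lemma flip_ne {w : V → V → ℤ} {a x y : V} (hx : x ≠ a) (hy : y ≠ a) : flip w a x y = w x y := by
  simp [flip, hx, hy]

lemma flip_left {w : V → V → ℤ} {a y : V} (hy : y ≠ a) : flip w a a y = - w a y := by
  simp [flip, hy]

lemma flip_right {w : V → V → ℤ} {a x : V} (hx : x ≠ a) : flip w a x a = - w x a := by
  simp [flip, hx]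

lemma eqv_flip (w : V → V → ℤ) (a : V) : Eqv w (flip w a) :=
  ⟨fun v => if v = a then -1 else 1, fun v => by by_cases h : v = a <;> simp [h],
    fun x y => rfl⟩

lemma Eqv.trans {w w' w'' : V → V → ℤ} (h : Eqv w w') (h' : Eqv w' w'') : Eqv w w'' := by
  obtain ⟨χ, h1, h2⟩ := h
  obtain ⟨ψ, h3, h4⟩ := h'
  refine ⟨fun v => χ v * ψ v, fun v => ?_, fun x y => ?_⟩
  · rcases h1 v with h | h <;> rcases h3 v with h' | h' <;> simp [h, h']
  · rw [h4, h2]; ring

lemma Basic.eqv {G : SimpleGraph V} {w w' : V → V → ℤ} (h : Basic G w) (e : Eqv w w') :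
    Basic G w' := by
  obtain ⟨χ, h1, h2⟩ := e
  have hne : ∀ v, χ v ≠ 0 := fun v => by rcases h1 v with h | h <;> simp [h]
  refine ⟨fun x y => ?_, fun x y => ?_, fun x y => ?_⟩
  · rw [h2, h2, h.symm x y]; ring
  · rw [h2, ← h.adj x y]
    simp [hne]
  · rw [h2]
    rcases h.val x y with h | h | h <;> rcases h1 x with h' | h' <;> rcases h1 y with h'' | h'' <;>
      simp [h, h', h'']

lemma Mini.eqv {G : SimpleGraph V} {w w' : V → V → ℤ} (h : Mini G w) (e : Eqv w w')
    (hT : T w ≤ T w') : Mini G w' :=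
  ⟨h.toBasic.eqv e, fun w'' h'' => (h.mini w'' (e.trans h'')).trans hT⟩

lemma W_flip {G : SimpleGraph V} {w : V → V → ℤ} (h : Basic G w) {a b : V} (hab : b ≠ a) :
    W (flip w a) b = W w b - 2 * w b a := by
  have h1 : W (flip w a) b = ∑ y, (w b y - 2 * (if y = a then w b y else 0)) := by
    refine sum_congr rfl fun y _ => ?_
    by_cases hy : y = a
    · subst hy; rw [flip_right hab]; simp; ring
    · rw [flip_ne hab hy]; simp [hy]
  rw [h1, sum_sub_distrib, ← mul_sum]
  simp [W]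

lemma T_flip {G : SimpleGraph V} {w : V → V → ℤ} (h : Basic G w) (a : V) :
    T (flip w a) = T w - 4 * W w a := by
  have haa : w a a = 0 := by
    by_contra hh
    exact G.loopless.irrefl a ((h.adj a a).1 hh)
  have h1 : T (flip w a) = ∑ x, (W w x - 2 * w x a - 2 * (if x = a then W w a else 0)) := by
    refine sum_congr rfl fun x _ => ?_
    by_cases hx : x = a
    · subst hx
      have : ∑ y, flip w x x y = ∑ y, - w x y := by
        refine sum_congr rfl fun y _ => ?_
        by_cases hy : y = x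
        · subst hy; simp [flip, haa]
        · rw [flip_left hy]
      rw [this, sum_neg_distrib]
      simp [W, haa]; ring
    · have := W_flip h hx
      simp only [W] at this ⊢
      rw [this]; simp [hx]
  rw [h1, sum_sub_distrib, sum_sub_distrib, ← mul_sum, ← mul_sum]
  have h2 : ∑ x, w x a = W w a := sum_congr rfl fun x _ => h.symm x a
  rw [h2]
  simp [T, W]
  ring

variable {G : SimpleGraph V} {w : V → V → ℤ}

lemma Basic.self (h : Basic G w) (a : V) : w a a = 0 := by
  by_contra hh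
  exact G.loopless.irrefl a ((h.adj a a).1 hh)

lemma Basic.ne (h : Basic G w) {a b : V} (hab : w a b ≠ 0) : a ≠ b := by
  rintro rfl
  exact hab (h.self a)

lemma Mini.one (h : Mini G w) (a : V) : 0 ≤ W w a := by
  have := h.mini _ (eqv_flip w a)
  rw [T_flip h.toBasic] at this
  linarith

lemma T_two (h : Basic G w) {a b : V} (hab : a ≠ b) :
    T (flip (flip w a) b) = T w - 4 * (W w a + W w b - 2 * w a b) := by
  rw [T_flip (h.eqv (eqv_flip w a)), T_flip h, W_flip h hab.symm, h.symm b a]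
  ring

lemma Mini.two (h : Mini G w) {a b : V} (hab : a ≠ b) : 0 ≤ W w a + W w b - 2 * w a b := by
  have := h.mini _ ((eqv_flip w a).trans (eqv_flip _ b))
  rw [T_two h.toBasic hab] at this
  linarith

lemma Mini.three (h : Mini G w) {a b c : V} (hab : a ≠ b) (hac : a ≠ c) (hbc : b ≠ c) :
    0 ≤ W w a + W w b + W w c - 2 * (w a b + w a c + w b c) := by
  have hb := h.toBasic.eqv (eqv_flip w a)
  have := h.mini _ (((eqv_flip w a).trans (eqv_flip _ b)).trans (eqv_flip _ c))
  rw [T_flip (hb.eqv (eqv_flip _ b)), T_two h.toBasic hab, W_flip hb hbc.symm,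
    W_flip h.toBasic hac.symm, flip_ne hac.symm hab.symm, h.symm c a, h.symm c b] at this
  linarith

/-- `x` is covered: it is the end of a negative edge -/
def Cov (w : V → V → ℤ) (x : V) : Prop := ∃ y, w x y = -1

/-- number of neighbours along positive and negative edges -/
noncomputable def np (w : V → V → ℤ) (x : V) : ℕ := (univ.filter fun y => w x y = 1).card
noncomputable def nn (w : V → V → ℤ) (x : V) : ℕ := (univ.filter fun y => w x y = -1).card

lemma Basic.W_eq (h : Basic G w) (x : V) : W w x = (np w x : ℤ) - nn w x := by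
  have h1 : ∀ y, w x y = (if w x y = 1 then (1 : ℤ) else 0) - (if w x y = -1 then 1 else 0) := by
    intro y
    rcases h.val x y with h | h | h <;> simp [h]
  rw [W, np, nn, sum_congr rfl fun y _ => h1 y, sum_sub_distrib]
  simp

lemma Basic.deg_eq (h : Basic G w) [DecidableRel G.Adj] (x : V) :
    G.degree x = np w x + nn w x := by
  have h1 : G.neighborFinset x = (univ.filter fun y => w x y = 1) ∪
      (univ.filter fun y => w x y = -1) := by
    ext y
    simp only [SimpleGraph.mem_neighborFinset, ← h.adj, mem_union, mem_filter, mem_univ, true_and]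
    rcases h.val x y with h | h | h <;> simp [h]
  rw [← SimpleGraph.card_neighborFinset_eq_degree, h1, card_union_of_disjoint, np, nn]
  rw [disjoint_filter]
  intro y _ h1 h2
  rw [h1] at h2
  norm_num at h2

/-- the standing hypotheses on the graph -/
structure Hyp (G : SimpleGraph V) : Prop where
  deg : ∀ [DecidableRel G.Adj] (v : V), G.degree v ≤ 3
  tri : ∀ a b c, G.Adj a b → G.Adj b c → G.Adj c a → False
  four : ∀ a b c d, G.Adj a b → G.Adj b c → G.Adj c d → G.Adj d a → a ≠ c → b ≠ d → False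

variable (H : Hyp G)
include H

lemma Mini.nn_le (h : Mini G w) (x : V) : nn w x ≤ 1 := by
  classical
  have h1 := h.one x
  rw [h.toBasic.W_eq] at h1
  have h2 := h.toBasic.deg_eq x
  have h3 := H.deg x
  omega

omit H in
lemma cov_iff (x : V) : Cov w x ↔ 1 ≤ nn w x := by
  rw [nn, Nat.one_le_iff_ne_zero, Ne, card_eq_zero, ← Ne, ← nonempty_iff_ne_empty]
  exact ⟨fun ⟨y, hy⟩ => ⟨y, by simp [hy]⟩, fun ⟨y, hy⟩ => ⟨y, by simpa using hy⟩⟩

lemma Mini.uniq (h : Mini G w) {x y z : V} (hy : w x y = -1) (hz : w x z = -1) : y = z := by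
  have h1 := h.nn_le H x
  rw [nn, card_le_one] at h1
  exact h1 y (by simp [hy]) z (by simp [hz])

lemma Mini.W_le (h : Mini G w) {x : V} (hx : Cov w x) : W w x ≤ 1 := by
  classical
  have h1 := (cov_iff x).1 hx
  rw [h.toBasic.W_eq]
  have h2 := h.toBasic.deg_eq x
  have h3 := H.deg x
  omega

/-- the two ends of a link have `W = 1` -/
lemma Mini.link_W (h : Mini G w) {x a : V} (hx : Cov w x) (ha : Cov w a) (hxa : w x a = 1) :
    W w x = 1 ∧ W w a = 1 := by
  have h1 := h.two (h.toBasic.ne (by rw [hxa]; norm_num) : x ≠ a)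
  have h2 := h.W_le H hx
  have h3 := h.W_le H ha
  rw [hxa] at h1
  constructor <;> linarith

lemma Mini.link_uniq (h : Mini G w) {x a b : V} (hx : Cov w x) (ha : Cov w a) (hb : Cov w b)
    (hxa : w x a = 1) (hxb : w x b = 1) : a = b := by
  by_contra hab
  have hxa' : x ≠ a := h.toBasic.ne (by rw [hxa]; norm_num)
  have hxb' : x ≠ b := h.toBasic.ne (by rw [hxb]; norm_num)
  have h1 := h.three hxa' hxb' hab
  have h2 := h.W_le H hx
  have h3 := h.W_le H ha
  have h4 := h.W_le H hb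
  have h5 : w a b = 0 := by
    by_contra h5
    exact H.tri x a b ((h.adj x a).1 (by rw [hxa]; norm_num)) ((h.adj a b).1 h5)
      ((h.adj b x).1 (by rw [h.symm, hxb]; norm_num))
  rw [hxa, hxb, h5] at h1
  linarith

/-- switching at the two ends of a link -/
lemma Mini.switch (h : Mini G w) {x a : V} (hx : Cov w x) (ha : Cov w a) (hxa : w x a = 1) :
    Mini G (flip (flip w x) a) := by
  refine h.eqv ((eqv_flip w x).trans (eqv_flip _ a)) ?_
  obtain ⟨h1, h2⟩ := h.link_W H hx ha hxa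
  rw [T_two h.toBasic (h.toBasic.ne (by rw [hxa]; norm_num) : x ≠ a), h1, h2, hxa]
  norm_num

/-- every covered vertex has a free neighbour -/
lemma Mini.ex_free (h : Mini G w) {x : V} (hx : Cov w x) : ∃ p, w x p = 1 ∧ ¬ Cov w p := by
  by_contra hcon
  push Not at hcon
  have h1 := (cov_iff x).1 hx
  have h2 := h.nn_le H x
  have h3 := h.one x
  rw [h.toBasic.W_eq] at h3
  have h4 : 1 ≤ np w x := by omega
  obtain ⟨a, ha⟩ := card_pos.1 (show 0 < (univ.filter fun y => w x y = 1).card from h4)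
  simp only [mem_filter, mem_univ, true_and] at ha
  obtain ⟨h5, -⟩ := h.link_W H hx (hcon a ha) ha
  rw [h.toBasic.W_eq] at h5
  have h6 : 1 < np w x := by omega
  obtain ⟨b, hb, c, hc, hbc⟩ := one_lt_card.1 (show 1 < (univ.filter fun y => w x y = 1).card from h6)
  simp only [mem_filter, mem_univ, true_and] at hb hc
  exact hbc (h.link_uniq H hx (hcon b hb) (hcon c hc) hb hc)

omit H in
/-- values after switching at two vertices -/
lemma f2_out {w : V → V → ℤ} {a b p r : V} (h1 : p ≠ a) (h2 : p ≠ b) (h3 : r ≠ a) (h4 : r ≠ b) :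
    flip (flip w a) b p r = w p r := by
  rw [flip_ne h2 h4, flip_ne h1 h3]

omit H in
lemma f2_a {w : V → V → ℤ} {a b p : V} (hab : a ≠ b) (h1 : p ≠ a) (h2 : p ≠ b) :
    flip (flip w a) b p a = - w p a := by
  rw [flip_ne h2 hab, flip_right h1]

omit H in
lemma f2_b {w : V → V → ℤ} {a b p : V} (hab : a ≠ b) (h1 : p ≠ a) (h2 : p ≠ b) :
    flip (flip w a) b p b = - w p b := by
  rw [flip_right h2, flip_ne h1 hab.symm]

omit H in
lemma Basic.cov_symm (h : Basic G w) {x y : V} (hxy : w x y = -1) : Cov w x ∧ Cov w y :=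
  ⟨⟨y, hxy⟩, ⟨x, by rw [h.symm, hxy]⟩⟩

omit H in
lemma Basic.adj1 (h : Basic G w) {x y : V} (hxy : w x y = 1) : G.Adj x y :=
  (h.adj x y).1 (by rw [hxy]; norm_num)

omit H in
lemma Basic.adjm (h : Basic G w) {x y : V} (hxy : w x y = -1) : G.Adj x y :=
  (h.adj x y).1 (by rw [hxy]; norm_num)

/-- `x` is covered and either has degree two or is the end of a link -/
def Typ (w : V → V → ℤ) (x : V) : Prop := Cov w x ∧ (W w x = 0 ∨ ∃ b, w x b = 1 ∧ Cov w b)

/-- a free neighbour of a vertex of this type has a free neighbour -/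
lemma Mini.free_of_typ (h : Mini G w) {x u : V} (hx : Typ w x) (hu : ¬ Cov w u)
    (hxu : w x u = 1) : ∃ p, w u p = 1 ∧ ¬ Cov w p := by
  by_contra hcon
  push Not at hcon
  obtain ⟨hxc, h0 | ⟨b, hb, hbc⟩⟩ := hx
  · have hm : Mini G (flip w x) := h.eqv (eqv_flip w x) (by rw [T_flip h.toBasic, h0]; simp)
    have hux : u ≠ x := by rintro rfl; exact hu hxc
    have hcu : Cov (flip w x) u := ⟨x, by rw [flip_right hux, h.symm, hxu]⟩
    obtain ⟨p, hp, hpc⟩ := hm.ex_free H hcu
    have hpx : p ≠ x := by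
      rintro rfl
      rw [flip_right hux, h.symm, hxu] at hp
      norm_num at hp
    rw [flip_ne hux hpx] at hp
    obtain ⟨r, hr⟩ := hcon p hp
    have hrx : r ≠ x := by
      rintro rfl
      exact H.tri r u p (h.adj1 hxu) (h.adj1 hp) (h.adjm hr)
    exact hpc ⟨r, by rw [flip_ne hpx hrx, hr]⟩
  · have hm := h.switch H hxc hbc hb
    have hxb : x ≠ b := h.toBasic.ne (by rw [hb]; norm_num)
    have hux : u ≠ x := by rintro rfl; exact hu hxc
    have hub : u ≠ b := by rintro rfl; exact hu hbc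
    have hcu : Cov (flip (flip w x) b) u := ⟨x, by rw [f2_a hxb hux hub, h.symm, hxu]⟩
    obtain ⟨p, hp, hpc⟩ := hm.ex_free H hcu
    have hpx : p ≠ x := by
      rintro rfl
      rw [f2_a hxb hux hub, h.symm, hxu] at hp
      norm_num at hp
    have hpb : p ≠ b := by
      rintro rfl
      rw [f2_b hxb hux hub] at hp
      exact hu ⟨p, by linarith⟩
    rw [f2_out hux hub hpx hpb] at hp
    obtain ⟨r, hr⟩ := hcon p hp
    have hrx : r ≠ x := by
      rintro rfl
      exact H.tri r u p (h.adj1 hxu) (h.adj1 hp) (h.adjm hr)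
    have hrb : r ≠ b := by
      rintro rfl
      exact H.four x u p r (h.adj1 hxu) (h.adj1 hp) (h.adjm hr) (h.adj1 hb).symm hpx.symm hub
    exact hpc ⟨r, by rw [f2_out hpx hpb hrx hrb, hr]⟩

/-- the structure at a free vertex with two neighbours of this type -/
lemma Mini.struct (h : Mini G w) {u x1 x2 b2 : V} (hu : ¬ Cov w u) (h1 : Typ w x1)
    (hux1 : w u x1 = 1) (hux2 : w u x2 = 1) (hne : x1 ≠ x2) (h2 : Cov w x2)
    (hb2 : w x2 b2 = 1) (hb2c : Cov w b2) : ∃ b1, w x1 b1 = 1 ∧ Cov w b1 ∧ w b1 b2 = -1 := by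
  obtain ⟨hx1c, h0⟩ := h1
  have hux1' : u ≠ x1 := h.toBasic.ne (by rw [hux1]; norm_num)
  have hux2' : u ≠ x2 := h.toBasic.ne (by rw [hux2]; norm_num)
  have hub2 : u ≠ b2 := by rintro rfl; exact hu hb2c
  have hb2x1 : b2 ≠ x1 := by
    rintro rfl
    exact H.tri b2 u x2 (h.adj1 hux1).symm (h.adj1 hux2) (h.adj1 hb2)
  obtain ⟨m2, hm2⟩ := h2
  obtain ⟨m, hm⟩ := hb2c
  have hm2x1 : m2 ≠ x1 := by
    rintro rfl
    exact H.tri m2 u x2 (h.adj1 hux1).symm (h.adj1 hux2) (h.adjm hm2)
  have hmx1 : m ≠ x1 := by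
    rintro rfl
    exact H.four u x2 b2 m (h.adj1 hux2) (h.adj1 hb2) (h.adjm hm) (h.adj1 hux1).symm hub2 hne.symm
  rcases h0 with h0 | ⟨b1, hb1, hb1c⟩
  · exfalso
    have hmi : Mini G (flip w x1) := h.eqv (eqv_flip w x1) (by rw [T_flip h.toBasic, h0]; simp)
    have hcu : Cov (flip w x1) u := ⟨x1, by rw [flip_right hux1', hux1]⟩
    have hc2 : Cov (flip w x1) x2 := ⟨m2, by rw [flip_ne hne.symm hm2x1, hm2]⟩
    have hcb : Cov (flip w x1) b2 := ⟨m, by rw [flip_ne hb2x1 hmx1, hm]⟩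
    exact hub2 (hmi.link_uniq H hc2 hcu hcb (by rw [flip_ne hne.symm hux1', h.symm, hux2])
      (by rw [flip_ne hne.symm hb2x1, hb2]))
  · refine ⟨b1, hb1, hb1c, ?_⟩
    have hmi := h.switch H hx1c hb1c hb1
    have hxb : x1 ≠ b1 := h.toBasic.ne (by rw [hb1]; norm_num)
    have hub1 : u ≠ b1 := by rintro rfl; exact hu hb1c
    have hx2b1 : x2 ≠ b1 := by
      rintro rfl
      exact H.tri x1 x2 u (h.adj1 hb1) (h.adj1 hux2).symm (h.adj1 hux1)
    have hm2b1 : m2 ≠ b1 := by
      rintro rfl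
      exact H.four u x1 m2 x2 (h.adj1 hux1) (h.adj1 hb1) (h.adjm hm2).symm (h.adj1 hux2).symm
        hub1 hne
    have hb2b1 : b2 ≠ b1 := by
      rintro rfl
      exact hne (h.link_uniq H hb1c hx1c ⟨m2, hm2⟩ (by rw [h.symm, hb1]) (by rw [h.symm, hb2]))
    have hcu : Cov (flip (flip w x1) b1) u := ⟨x1, by rw [f2_a hxb hux1' hub1, hux1]⟩
    have hc2 : Cov (flip (flip w x1) b1) x2 :=
      ⟨m2, by rw [f2_out hne.symm hx2b1 hm2x1 hm2b1, hm2]⟩
    by_cases hmb1 : m = b1
    · rw [h.symm, ← hmb1, hm]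
    · exfalso
      have hcb : Cov (flip (flip w x1) b1) b2 := ⟨m, by rw [f2_out hb2x1 hb2b1 hmx1 hmb1, hm]⟩
      exact hub2 (hmi.link_uniq H hc2 hcu hcb
        (by rw [f2_out hne.symm hx2b1 hux1' hub1, h.symm, hux2])
        (by rw [f2_out hne.symm hx2b1 hb2x1 hb2b1, hb2]))

/-- both neighbours are ends of links -/
lemma Mini.struct0 (h : Mini G w) {u x1 x2 : V} (hu : ¬ Cov w u) (h1 : Typ w x1) (h2 : Typ w x2)
    (hux1 : w u x1 = 1) (hux2 : w u x2 = 1) (hne : x1 ≠ x2) : ∃ b, w x2 b = 1 ∧ Cov w b := by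
  obtain ⟨hx2c, h20 | h20⟩ := h2
  swap
  · exact h20
  exfalso
  obtain ⟨hx1c, h0⟩ := h1
  have hux1' : u ≠ x1 := h.toBasic.ne (by rw [hux1]; norm_num)
  have hux2' : u ≠ x2 := h.toBasic.ne (by rw [hux2]; norm_num)
  obtain ⟨m2, hm2⟩ := hx2c
  have hm2x1 : m2 ≠ x1 := by
    rintro rfl
    exact H.tri m2 u x2 (h.adj1 hux1).symm (h.adj1 hux2) (h.adjm hm2)
  have h21 : w x2 x1 = 0 := by
    by_contra hh
    exact H.tri x2 x1 u ((h.adj _ _).1 hh) (h.adj1 hux1).symm (h.adj1 hux2)
  rcases h0 with h0 | ⟨b1, hb1, hb1c⟩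
  · have hmi : Mini G (flip w x1) := h.eqv (eqv_flip w x1) (by rw [T_flip h.toBasic, h0]; simp)
    have hcu : Cov (flip w x1) u := ⟨x1, by rw [flip_right hux1', hux1]⟩
    have hc2 : Cov (flip w x1) x2 := ⟨m2, by rw [flip_ne hne.symm hm2x1, hm2]⟩
    have := (hmi.link_W H hc2 hcu (by rw [flip_ne hne.symm hux1', h.symm, hux2])).1
    rw [W_flip h.toBasic hne.symm, h20, h21] at this
    norm_num at this
  · have hmi := h.switch H hx1c hb1c hb1
    have hxb : x1 ≠ b1 := h.toBasic.ne (by rw [hb1]; norm_num)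
    have hub1 : u ≠ b1 := by rintro rfl; exact hu hb1c
    have hx2b1 : x2 ≠ b1 := by
      rintro rfl
      exact H.tri x1 x2 u (h.adj1 hb1) (h.adj1 hux2).symm (h.adj1 hux1)
    have hm2b1 : m2 ≠ b1 := by
      rintro rfl
      exact H.four u x1 m2 x2 (h.adj1 hux1) (h.adj1 hb1) (h.adjm hm2).symm (h.adj1 hux2).symm
        hub1 hne
    have h2b : w x2 b1 = 0 := by
      by_contra hh
      exact H.four u x1 b1 x2 (h.adj1 hux1) (h.adj1 hb1) ((h.adj _ _).1 hh).symm
        (h.adj1 hux2).symm hub1 hne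
    have hcu : Cov (flip (flip w x1) b1) u := ⟨x1, by rw [f2_a hxb hux1' hub1, hux1]⟩
    have hc2 : Cov (flip (flip w x1) b1) x2 :=
      ⟨m2, by rw [f2_out hne.symm hx2b1 hm2x1 hm2b1, hm2]⟩
    have := (hmi.link_W H hc2 hcu (by rw [f2_out hne.symm hx2b1 hux1' hub1, h.symm, hux2])).1
    rw [W_flip (h.toBasic.eqv (eqv_flip w x1)) hx2b1, W_flip h.toBasic hne.symm, h20, h21,
      flip_ne hne.symm hxb.symm, h2b] at this
    norm_num at this

end Pool.Agent.H78.Frus
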