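import Pool.Agent.H78.Frus

set_option autoImplicit false
set_option linter.unusedSectionVars false
set_option linter.unusedVariables false

namespace Pool.Agent.H78.Frus

open Finset

variable {V : Type*} [Fintype V] [DecidableEq V] {G : SimpleGraph V} {w : V → V → ℤ}

/-- an exceptional free vertex `e` with its two link ends `x1, x2` -/
structure Exc (G : SimpleGraph V) (w : V → V → ℤ) (e x1 b1 x2 b2 : V) : Prop where
  free : ¬ Cov w e
  c1 : Cov w x1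
  c2 : Cov w x2
  e1 : w e x1 = 1
  e2 : w e x2 = 1
  ne : x1 ≠ x2
  l1 : w x1 b1 = 1
  l2 : w x2 b2 = 1
  bb : w b1 b2 = -1

lemma Exc.swap {e x1 b1 x2 b2 : V} (h : Basic G w) (E : Exc G w e x1 b1 x2 b2) :
    Exc G w e x2 b2 x1 b1 :=
  ⟨E.free, E.c2, E.c1, E.e2, E.e1, E.ne.symm, E.l2, E.l1, by rw [h.symm, E.bb]⟩

variable (H : Hyp G)
include H

lemma Exc.facts {e x1 b1 x2 b2 v q : V} (h : Mini G w) (E : Exc G w e x1 b1 x2 b2)
    (hv : ¬ Cov w v) (hev : w e v = 1) (hq : Cov w q) (hvq : w v q = 1) :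
    q ≠ x1 ∧ q ≠ b1 ∧ w q x1 = 0 ∧ w q b1 = 0 ∧ q ≠ e ∧ w q e = 0 := by
  have hb1c : Cov w b1 := ⟨b2, E.bb⟩
  have hb2c : Cov w b2 := ⟨b1, by rw [h.symm, E.bb]⟩
  have heb1 : e ≠ b1 := fun hh => E.free (hh ▸ hb1c)
  have heb2 : e ≠ b2 := fun hh => E.free (hh ▸ hb2c)
  have hvx1 : v ≠ x1 := fun hh => hv (hh ▸ E.c1)
  have hvx2 : v ≠ x2 := fun hh => hv (hh ▸ E.c2)
  have heq : e ≠ q := fun hh => E.free (hh ▸ hq)
  have hqb2 : q ≠ b2 := by
    rintro rfl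
    exact H.four e x2 q v (h.adj1 E.e2) (h.adj1 E.l2) (h.adj1 hvq).symm (h.adj1 hev).symm
      heq hvx2.symm
  have hqx1 : q ≠ x1 := by
    rintro rfl
    exact H.tri e v q (h.adj1 hev) (h.adj1 hvq) (h.adj1 E.e1).symm
  have hqb1 : q ≠ b1 := by
    rintro rfl
    exact H.four e x1 q v (h.adj1 E.e1) (h.adj1 E.l1) (h.adj1 hvq).symm (h.adj1 hev).symm
      heb1 hvx1.symm
  refine ⟨hqx1, hqb1, ?_, ?_, heq.symm, ?_⟩
  · by_contra hh
    exact H.four e x1 q v (h.adj1 E.e1) ((h.adj _ _).1 hh).symm (h.adj1 hvq).symm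
      (h.adj1 hev).symm heq hvx1.symm
  · rcases h.val q b1 with hh | hh | hh
    · exact hh
    · exact absurd (h.link_uniq H hb1c hq E.c1 (by rw [h.symm, hh]) (by rw [h.symm, E.l1])) hqx1
    · exact absurd (h.uniq H (x := b1) (by rw [h.symm, hh]) E.bb) hqb2
  · by_contra hh
    exact H.tri e v q (h.adj1 hev) (h.adj1 hvq) ((h.adj _ _).1 hh)

/-- first step: the structure at a covered neighbour `q` of the free neighbour `v` -/
lemma Exc.step {e x1 b1 x2 b2 v q : V} (h : Mini G w) (E : Exc G w e x1 b1 x2 b2)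
    (hv : ¬ Cov w v) (hev : w e v = 1) (hq : Cov w q) (hvq : w v q = 1) :
    W w q = 1 ∧ ∀ s, w q s = 1 → Cov w s → (w s x1 = -1 ∨ w s x2 = -1) := by
  obtain ⟨hqx1, hqb1, wqx1, wqb1, hqe, wqe⟩ := E.facts H h hv hev hq hvq
  obtain ⟨hqx2, hqb2, wqx2, wqb2, -, -⟩ := (E.swap h.toBasic).facts H h hv hev hq hvq
  have hb1c : Cov w b1 := ⟨b2, E.bb⟩
  have hb2c : Cov w b2 := ⟨b1, by rw [h.symm, E.bb]⟩
  have hex1 : e ≠ x1 := fun hh => E.free (hh ▸ E.c1)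
  have hex2 : e ≠ x2 := fun hh => E.free (hh ▸ E.c2)
  have heb1 : e ≠ b1 := fun hh => E.free (hh ▸ hb1c)
  have hvx1 : v ≠ x1 := fun hh => hv (hh ▸ E.c1)
  have hvx2 : v ≠ x2 := fun hh => hv (hh ▸ E.c2)
  have hvb1 : v ≠ b1 := fun hh => hv (hh ▸ hb1c)
  have hve : v ≠ e := (h.toBasic.ne (by rw [hev]; norm_num)).symm
  have hvq' : v ≠ q := fun hh => hv (hh ▸ hq)
  have hx1b1 : x1 ≠ b1 := h.toBasic.ne (by rw [E.l1]; norm_num)
  have hx2b1 : x2 ≠ b1 := by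
    rintro rfl
    exact H.tri x1 x2 e (h.adj1 E.l1) (h.adj1 E.e2).symm (h.adj1 E.e1)
  -- the first switch
  have hM3 := h.switch H E.c1 hb1c E.l1
  have c3e : Cov (flip (flip w x1) b1) e := ⟨x1, by rw [f2_a hx1b1 hex1 heb1, E.e1]⟩
  obtain ⟨m2, hm2⟩ := E.c2
  have hm2x1 : m2 ≠ x1 := by
    rintro rfl
    exact H.tri m2 e x2 (h.adj1 E.e1).symm (h.adj1 E.e2) (h.adjm hm2)
  have hm2b1 : m2 ≠ b1 := by
    rintro rfl
    exact H.four e x1 m2 x2 (h.adj1 E.e1) (h.adj1 E.l1) (h.adjm hm2).symm (h.adj1 E.e2).symm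
      heb1 E.ne
  have c3x : Cov (flip (flip w x1) b1) x2 :=
    ⟨m2, by rw [f2_out E.ne.symm hx2b1 hm2x1 hm2b1, hm2]⟩
  have hM1 := hM3.switch H c3e c3x (by rw [f2_out hex1 heb1 E.ne.symm hx2b1, E.e2])
  set w1 := flip (flip (flip (flip w x1) b1) e) x2 with hw1
  have out : ∀ p r, p ≠ x1 → p ≠ b1 → p ≠ e → p ≠ x2 → r ≠ x1 → r ≠ b1 → r ≠ e → r ≠ x2 →
      w1 p r = w p r := by
    intro p r h1 h2 h3 h4 h5 h6 h7 h8
    rw [hw1, f2_out h3 h4 h7 h8, f2_out h1 h2 h5 h6]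
  have cv : Cov w1 v := ⟨e, by rw [hw1, f2_a hex2 hve hvx2, f2_out hvx1 hvb1 hex1 heb1, h.symm, hev]⟩
  obtain ⟨r, hr⟩ := hq
  have hre : r ≠ e := by rintro rfl; exact E.free ⟨q, by rw [h.symm, hr]⟩
  have hrx1 : r ≠ x1 := by rintro rfl; rw [wqx1] at hr; norm_num at hr
  have hrx2 : r ≠ x2 := by rintro rfl; rw [wqx2] at hr; norm_num at hr
  have hrb1 : r ≠ b1 := by rintro rfl; rw [wqb1] at hr; norm_num at hr
  have cq : Cov w1 q := ⟨r, by rw [out q r hqx1 hqb1 hqe hqx2 hrx1 hrb1 hre hrx2, hr]⟩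
  have lvq : w1 q v = 1 := by
    rw [out q v hqx1 hqb1 hqe hqx2 hvx1 hvb1 hve hvx2, h.symm, hvq]
  refine ⟨?_, ?_⟩
  · have h1 := (hM1.link_W H cq cv lvq).1
    have hB1 := h.toBasic.eqv (eqv_flip w x1)
    have hB2 := hB1.eqv (eqv_flip _ b1)
    have hB3 := hB2.eqv (eqv_flip _ e)
    rw [hw1, W_flip hB3 hqx2, W_flip hB2 hqe, W_flip hB1 hqb1, W_flip h.toBasic hqx1, wqx1,
      flip_ne hqx1 hx1b1.symm, wqb1, f2_out hqx1 hqb1 hex1 heb1, wqe, flip_ne hqe hex2.symm,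
      f2_out hqx1 hqb1 E.ne.symm hx2b1, wqx2] at h1
    linarith
  · intro s hs hsc
    by_contra hcon
    push Not at hcon
    obtain ⟨m, hm⟩ := hsc
    have hsx1 : s ≠ x1 := by rintro rfl; rw [wqx1] at hs; norm_num at hs
    have hsx2 : s ≠ x2 := by rintro rfl; rw [wqx2] at hs; norm_num at hs
    have hsb1 : s ≠ b1 := by rintro rfl; rw [wqb1] at hs; norm_num at hs
    have hse : s ≠ e := by rintro rfl; exact E.free ⟨m, hm⟩
    have hmx1 : m ≠ x1 := by rintro rfl; exact hcon.1 hm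
    have hmx2 : m ≠ x2 := by rintro rfl; exact hcon.2 hm
    have hme : m ≠ e := by rintro rfl; exact E.free ⟨s, by rw [h.symm, hm]⟩
    have hmb1 : m ≠ b1 := by
      rintro rfl
      have : s = b2 := h.uniq H (x := m) (by rw [h.symm, hm]) E.bb
      rw [this, wqb2] at hs
      norm_num at hs
    have cs : Cov w1 s := ⟨m, by rw [out s m hsx1 hsb1 hse hsx2 hmx1 hmb1 hme hmx2, hm]⟩
    have := hM1.link_uniq H cq cv cs lvq
      (by rw [out q s hqx1 hqb1 hqe hqx2 hsx1 hsb1 hse hsx2, hs])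
    exact hv (this ▸ ⟨m, hm⟩)

/-- the case distinction for `q` being of the right type -/
lemma Mini.typ_link {q : V} (hq : Typ w q) (hW : W w q = 1) : ∃ s, w q s = 1 ∧ Cov w s := by
  obtain ⟨-, h0 | h0⟩ := hq
  · rw [h0] at hW; norm_num at hW
  · exact h0

lemma Exc.claim1_aux {e x1 b1 x2 b2 v q s p : V} (h : Mini G w) (E : Exc G w e x1 b1 x2 b2)
    (hv : ¬ Cov w v) (hev : w e v = 1) (hq : Cov w q) (hvq : w v q = 1)
    (hqs : w q s = 1) (hsx : w s x1 = -1) (hvp : w v p = 1) (hp : Cov w p) : p = q := by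
  by_contra hpq
  obtain ⟨hqx1, hqb1, wqx1, wqb1, hqe, wqe⟩ := E.facts H h hv hev hq hvq
  obtain ⟨hqx2, hqb2, wqx2, wqb2, -, -⟩ := (E.swap h.toBasic).facts H h hv hev hq hvq
  obtain ⟨hpx1, hpb1, wpx1, wpb1, hpe, wpe⟩ := E.facts H h hv hev hp hvp
  have hb1c : Cov w b1 := ⟨b2, E.bb⟩
  have hb2c : Cov w b2 := ⟨b1, by rw [h.symm, E.bb]⟩
  have hsc : Cov w s := ⟨x1, hsx⟩
  have hqs' : q ≠ s := h.toBasic.ne (by rw [hqs]; norm_num)
  have hM := h.switch H hq hsc hqs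
  have hes : e ≠ s := fun hh => E.free (hh ▸ hsc)
  have hvs : v ≠ s := fun hh => hv (hh ▸ hsc)
  have hvq' : v ≠ q := fun hh => hv (hh ▸ hq)
  have hx1b1 : x1 ≠ b1 := h.toBasic.ne (by rw [E.l1]; norm_num)
  -- `e` is free after the switch
  have fe : ¬ Cov (flip (flip w q) s) e := by
    rintro ⟨y, hy⟩
    by_cases hyq : y = q
    · subst hyq
      rw [f2_a hqs' hqe.symm hes] at hy
      have : w y e = 1 := by rw [h.symm]; linarith
      rw [wqe] at this; norm_num at this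
    · by_cases hys : y = s
      · subst hys
        rw [f2_b hqs' hqe.symm hes] at hy
        have h1 : w e y = 1 := by linarith
        exact H.four e y q v (h.adj1 h1) (h.adj1 hqs).symm (h.adj1 hvq).symm (h.adj1 hev).symm
          hqe.symm hvs.symm
      · rw [f2_out hqe.symm hes hyq hys] at hy
        exact E.free ⟨y, hy⟩
  obtain ⟨m2, hm2⟩ := E.c2
  have hx2s : x2 ≠ s := by
    rintro rfl
    exact H.tri e x1 x2 (h.adj1 E.e1) (h.adjm hsx).symm (h.adj1 E.e2).symm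
  have hm2s : m2 ≠ s := by
    rintro rfl
    exact E.ne (h.uniq H hsx (by rw [h.symm, hm2]))
  have hm2q : m2 ≠ q := by
    rintro rfl
    rw [h.symm, wqx2] at hm2; norm_num at hm2
  have cx2 : Cov (flip (flip w q) s) x2 := ⟨m2, by rw [f2_out hqx2.symm hx2s hm2q hm2s, hm2]⟩
  have hb2s : b2 ≠ s := by
    rintro rfl
    exact hx1b1 (h.uniq H hsx (by rw [h.symm, E.bb]))
  have hb1s : b1 ≠ s := by
    rintro rfl
    have : x1 = b2 := h.uniq H hsx E.bb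
    subst this
    exact H.tri e x1 x2 (h.adj1 E.e1) (h.adj1 E.l2).symm (h.adj1 E.e2).symm
  have hbb : flip (flip w q) s b2 b1 = -1 := by
    rw [f2_out hqb2.symm hb2s hqb1.symm hb1s, h.symm, E.bb]
  have lx2 : flip (flip w q) s x2 b2 = 1 := by
    rw [f2_out hqx2.symm hx2s hqb2.symm hb2s, E.l2]
  have cv : Cov (flip (flip w q) s) v := ⟨q, by rw [f2_a hqs' hvq' hvs, hvq]⟩
  obtain ⟨mp, hmp⟩ := hp
  have hps : p ≠ s := by
    rintro rfl
    exact H.tri v q p (h.adj1 hvq) (h.adj1 hqs) (h.adj1 hvp).symm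
  have hmps : mp ≠ s := by
    rintro rfl
    exact hpx1 (h.uniq H (x := mp) (by rw [h.symm, hmp]) hsx)
  have hmpq : mp ≠ q := by
    rintro rfl
    exact H.tri v p mp (h.adj1 hvp) (h.adjm hmp) (h.adj1 hvq).symm
  have cp : Cov (flip (flip w q) s) p := ⟨mp, by rw [f2_out hpq hps hmpq hmps, hmp]⟩
  have lp : flip (flip w q) s v p = 1 := by rw [f2_out hvq' hvs hpq hps, hvp]
  have hvx2 : v ≠ x2 := fun hh => hv (hh ▸ ⟨m2, hm2⟩)
  obtain ⟨b', hb', hb'c, hb'p⟩ := hM.struct H fe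
    (⟨cx2, Or.inr ⟨b2, lx2, ⟨b1, hbb⟩⟩⟩ : Typ _ x2)
    (by rw [f2_out hqe.symm hes hqx2.symm hx2s, E.e2] : flip (flip w q) s e x2 = 1)
    (by rw [f2_out hqe.symm hes hvq' hvs, hev] : flip (flip w q) s e v = 1)
    hvx2.symm cv lp cp
  have h1 : b' = b2 := hM.link_uniq H cx2 hb'c ⟨b1, hbb⟩ hb' lx2
  rw [h1] at hb'p
  have h2 : p = b1 := hM.uniq H hb'p hbb
  exact hpb1 h2

/-- if the free neighbour `v` has a neighbour `q` of this type, then it has no other covered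
neighbour -/
lemma Exc.claim1 {e x1 b1 x2 b2 v q p : V} (h : Mini G w) (E : Exc G w e x1 b1 x2 b2)
    (hv : ¬ Cov w v) (hev : w e v = 1) (hq : Typ w q) (hvq : w v q = 1)
    (hvp : w v p = 1) (hp : Cov w p) : p = q := by
  obtain ⟨h1, h2⟩ := E.step H h hv hev hq.1 hvq
  obtain ⟨s, hs, hsc⟩ := Mini.typ_link H hq h1
  rcases h2 s hs hsc with h3 | h3
  · exact E.claim1_aux H h hv hev hq.1 hvq hs h3 hvp hp
  · exact (E.swap h.toBasic).claim1_aux H h hv hev hq.1 hvq hs h3 hvp hp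

/-- ... and no other exceptional neighbour -/
lemma Exc.claim2 {e x1 b1 x2 b2 e' y1 c1 y2 c2 v q : V} (h : Mini G w)
    (E : Exc G w e x1 b1 x2 b2) (E' : Exc G w e' y1 c1 y2 c2)
    (hv : ¬ Cov w v) (hev : w e v = 1) (hev' : w e' v = 1) (hq : Typ w q) (hvq : w v q = 1) :
    e' = e := by
  by_contra hne
  obtain ⟨h1, h2⟩ := E.step H h hv hev hq.1 hvq
  obtain ⟨-, h2'⟩ := E'.step H h hv hev' hq.1 hvq
  obtain ⟨s, hs, hsc⟩ := Mini.typ_link H hq h1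
  have key : ∀ x y, w s x = -1 → w s y = -1 → w e x = 1 → w e' y = 1 → False := by
    intro x y hx hy hex hey
    have hxy := h.uniq H hx hy
    subst hxy
    have hvx : v ≠ x := by rintro rfl; exact hv ⟨s, by rw [h.symm, hx]⟩
    exact H.four e x e' v (h.adj1 hex) (h.adj1 hey).symm (h.adj1 hev') (h.adj1 hev).symm
      (Ne.symm hne) hvx.symm
  rcases h2 s hs hsc with h3 | h3 <;> rcases h2' s hs hsc with h4 | h4
  · exact key _ _ h3 h4 E.e1 E'.e1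
  · exact key _ _ h3 h4 E.e1 E'.e2
  · exact key _ _ h3 h4 E.e2 E'.e1
  · exact key _ _ h3 h4 E.e2 E'.e2

end Pool.Agent.H78.Frus
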