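import Pool.Agent.H78.Frus2

set_option autoImplicit false
set_option linter.unusedSectionVars false
set_option linter.unusedVariables false

namespace Pool.Agent.H78.Frus

open Finset Classical

variable {V : Type*} [Fintype V] {G : SimpleGraph V} {w : V → V → ℤ}

/-- covered vertices and free vertices -/
noncomputable def C (w : V → V → ℤ) : Finset V := univ.filter fun x => Cov w x
noncomputable def F (w : V → V → ℤ) : Finset V := univ.filter fun x => ¬ Cov w x

/-- covered neighbours along positive edges, free neighbours along positive edges -/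
noncomputable def cn (w : V → V → ℤ) (x : V) : Finset V := (C w).filter fun y => w x y = 1
noncomputable def fn (w : V → V → ℤ) (x : V) : Finset V := (F w).filter fun y => w x y = 1
/-- demanding neighbours -/
noncomputable def D (w : V → V → ℤ) (u : V) : Finset V := (cn w u).filter fun x => (fn w x).card = 1

/-- exceptional vertices -/
noncomputable def Ex (w : V → V → ℤ) : Finset V := (F w).filter fun u => 2 ≤ (D w u).card

lemma card_cn_fn (x : V) : (cn w x).card + (fn w x).card = np w x := by
  rw [np, ← card_filter_add_card_filter_not (s := univ.filter fun y => w x y = 1) (Cov w)]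
  congr 2
  · ext y; simp [cn, C, and_comm]
  · ext y; simp [fn, F, and_comm]

variable (H : Hyp G)
include H

lemma np_le_three (h : Mini G w) (x : V) : np w x ≤ 3 := by
  have h2 := h.toBasic.deg_eq x
  have h3 := H.deg x
  omega

lemma np_cov (h : Mini G w) {x : V} (hx : Cov w x) : np w x = 1 ∨ np w x = 2 := by
  have h1 := (cov_iff x).1 hx
  have h2 := h.nn_le H x
  have h3 := h.one x
  rw [h.toBasic.W_eq] at h3
  have h4 := h.toBasic.deg_eq x
  have h5 := H.deg x
  omega

lemma cn_cov (h : Mini G w) {x : V} (hx : Cov w x) : (cn w x).card ≤ 1 := by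
  rw [card_le_one]
  intro a ha b hb
  simp only [cn, C, mem_filter, mem_univ, true_and] at ha hb
  exact h.link_uniq H hx ha.1 hb.1 ha.2 hb.2

lemma fn_cov (h : Mini G w) {x : V} (hx : Cov w x) : (fn w x).card = 1 ∨ (fn w x).card = 2 := by
  have h1 := card_cn_fn (w := w) x
  obtain ⟨p, hp, hpc⟩ := h.ex_free H hx
  have h2 : 0 < (fn w x).card := card_pos.2 ⟨p, by simp [fn, F, hp, hpc]⟩
  rcases np_cov H h hx with h3 | h3 <;> omega

/-- demanding vertices are of the right type -/
lemma typ_of_dem (h : Mini G w) {x : V} (hx : Cov w x) (hd : (fn w x).card = 1) : Typ w x := by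
  refine ⟨hx, ?_⟩
  have h1 := card_cn_fn (w := w) x
  rcases np_cov H h hx with h3 | h3
  · left
    have h4 := (cov_iff x).1 hx
    have h2 := h.nn_le H x
    rw [h.toBasic.W_eq]
    omega
  · right
    obtain ⟨b, hb⟩ := card_pos.1 (show 0 < (cn w x).card by omega)
    simp only [cn, C, mem_filter, mem_univ, true_and] at hb
    exact ⟨b, hb.2, hb.1⟩

lemma D_typ (h : Mini G w) {u x : V} (hx : x ∈ D w u) : Typ w x ∧ w u x = 1 := by
  simp only [D, cn, C, mem_filter, mem_univ, true_and] at hx
  exact ⟨typ_of_dem H h hx.1.1 hx.2, hx.1.2⟩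

lemma fn_of_D (h : Mini G w) {u x : V} (hu : u ∈ F w) (hx : x ∈ D w u) : 1 ≤ (fn w u).card := by
  obtain ⟨h1, h2⟩ := D_typ H h hx
  simp only [F, mem_filter, mem_univ, true_and] at hu
  obtain ⟨p, hp, hpc⟩ := h.free_of_typ H h1 hu (by rw [h.symm, h2])
  exact card_pos.2 ⟨p, by simp [fn, F, hp, hpc]⟩

lemma exc_of_Ex (h : Mini G w) {e : V} (he : e ∈ Ex w) :
    ∃ x1 b1 x2 b2, Exc G w e x1 b1 x2 b2 := by
  simp only [Ex, mem_filter] at he
  obtain ⟨heF, hD⟩ := he
  obtain ⟨x1, hx1, x2, hx2, hne⟩ := one_lt_card.1 (show 1 < (D w e).card by omega)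
  obtain ⟨t1, e1⟩ := D_typ H h hx1
  obtain ⟨t2, e2⟩ := D_typ H h hx2
  simp only [F, mem_filter, mem_univ, true_and] at heF
  obtain ⟨b2, hb2, hb2c⟩ := h.struct0 H heF t1 t2 e1 e2 hne
  obtain ⟨b1, hb1, hb1c, hbb⟩ := h.struct H heF t1 e1 e2 hne t2.1 hb2 hb2c
  exact ⟨x1, b1, x2, b2, heF, t1.1, t2.1, e1, e2, hne, hb1, hb2, hbb⟩

lemma Ex_facts (h : Mini G w) {e : V} (he : e ∈ Ex w) :
    (cn w e).card = 2 ∧ (D w e).card = 2 ∧ (fn w e).card = 1 := by
  simp only [Ex, mem_filter] at he
  obtain ⟨heF, hD⟩ := he
  have h1 : (D w e).card ≤ (cn w e).card := card_le_card (filter_subset _ _)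
  obtain ⟨x, hx⟩ := card_pos.1 (show 0 < (D w e).card by omega)
  have h2 := fn_of_D H h heF hx
  have h3 := card_cn_fn (w := w) e
  have h4 := np_le_three H h e
  omega

/-- the local inequality -/
lemma local_ineq (h : Mini G w) {u : V} (hu : u ∈ F w) :
    (cn w u).card + (D w u).card + ((Ex w).filter fun e => w u e = 1).card ≤
      3 + (if u ∈ Ex w then 1 else 0) := by
  have h1 : (D w u).card ≤ (cn w u).card := card_le_card (filter_subset _ _)
  have h3 := card_cn_fn (w := w) u
  have h4 := np_le_three H h u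
  have huF := hu
  simp only [F, mem_filter, mem_univ, true_and] at huF
  have hsub : ((Ex w).filter fun e => w u e = 1).card ≤ (fn w u).card := by
    apply card_le_card
    intro e he
    simp only [Ex, mem_filter] at he
    simp only [fn, mem_filter]
    exact ⟨he.1.1, he.2⟩
  by_cases hD0 : (D w u).card = 0
  · have : u ∉ Ex w := by simp only [Ex, mem_filter]; omega
    simp only [this, if_false]
    omega
  obtain ⟨q, hq⟩ := card_pos.1 (show 0 < (D w u).card by omega)
  have h5 := fn_of_D H h hu hq
  -- if there is an exceptional neighbour then there is only one covered neighbour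
  have key : ∀ e ∈ Ex w, w u e = 1 → (cn w u).card ≤ 1 ∧
      ((Ex w).filter fun e => w u e = 1).card ≤ 1 := by
    intro e he hue
    obtain ⟨x1, b1, x2, b2, E⟩ := exc_of_Ex H h he
    obtain ⟨tq, hqe⟩ := D_typ H h hq
    have heu : w e u = 1 := by rw [h.symm, hue]
    constructor
    · rw [card_le_one]
      intro a ha b hb
      simp only [cn, C, mem_filter, mem_univ, true_and] at ha hb
      rw [E.claim1 H h huF heu tq hqe ha.2 ha.1, E.claim1 H h huF heu tq hqe hb.2 hb.1]
    · rw [card_le_one]
      intro a ha b hb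
      simp only [mem_filter] at ha hb
      obtain ⟨_, _, _, _, Ea⟩ := exc_of_Ex H h ha.1
      obtain ⟨_, _, _, _, Eb⟩ := exc_of_Ex H h hb.1
      rw [E.claim2 H h Ea huF heu (by rw [h.symm, ha.2]) tq hqe,
        E.claim2 H h Eb huF heu (by rw [h.symm, hb.2]) tq hqe]
  by_cases hex : ∃ e ∈ Ex w, w u e = 1
  · obtain ⟨e, he, hue⟩ := hex
    obtain ⟨k1, k2⟩ := key e he hue
    split_ifs <;> omega
  · have h0 : ((Ex w).filter fun e => w u e = 1).card = 0 := by
      rw [card_eq_zero, filter_eq_empty_iff]
      intro e he hh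
      exact hex ⟨e, he, hh⟩
    by_cases hu2 : u ∈ Ex w
    · obtain ⟨k1, k2, k3⟩ := Ex_facts H h hu2
      simp only [hu2, if_true]
      omega
    · have : (D w u).card ≤ 1 := by
        simp only [Ex, mem_filter, not_and, not_le] at hu2
        have := hu2 hu
        omega
      simp only [hu2, if_false]
      omega

omit H in
/-- double counting -/
lemma double (h : Basic G w) (A B : Finset V) (f : V → ℕ) :
    ∑ u ∈ B, ∑ x ∈ A.filter (fun x => w u x = 1), f x =
      ∑ x ∈ A, (B.filter fun u => w x u = 1).card * f x := by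
  simp_rw [sum_filter]
  rw [sum_comm]
  refine sum_congr rfl fun x _ => ?_
  rw [← sum_filter, sum_const, smul_eq_mul]
  congr 2
  ext u
  simp [h.symm x u]

/-- the number of covered vertices -/
theorem two_C_le (h : Mini G w) : 2 * (C w).card ≤ 3 * (F w).card := by
  -- the total demand
  have h1 : ∑ u ∈ F w, ((cn w u).card + (D w u).card) = 2 * (C w).card := by
    have e1 : ∀ u, (cn w u).card + (D w u).card =
        ∑ x ∈ (C w).filter (fun x => w u x = 1), (3 - (fn w x).card) := by
      intro u
      have : ∀ x ∈ cn w u, 3 - (fn w x).card = 1 + if (fn w x).card = 1 then 1 else 0 := by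
        intro x hx
        simp only [cn, C, mem_filter, mem_univ, true_and] at hx
        rcases fn_cov H h hx.1 with hh | hh <;> simp [hh]
      rw [show (C w).filter (fun x => w u x = 1) = cn w u from rfl, sum_congr rfl this,
        sum_add_distrib, D, card_filter, card_eq_sum_ones]
    rw [sum_congr rfl fun u _ => e1 u, double h.toBasic]
    have : ∀ x ∈ C w, ((F w).filter fun u => w x u = 1).card * (3 - (fn w x).card) = 2 := by
      intro x hx
      simp only [C, mem_filter, mem_univ, true_and] at hx
      rw [show (F w).filter (fun u => w x u = 1) = fn w x from rfl]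
      rcases fn_cov H h hx with hh | hh <;> simp [hh]
    rw [sum_congr rfl this, sum_const, smul_eq_mul, mul_comm]
  have h2 : ∑ u ∈ F w, ((Ex w).filter fun e => w u e = 1).card = (Ex w).card := by
    have := double h.toBasic (Ex w) (F w) (fun _ => 1)
    simp only [sum_const, smul_eq_mul, mul_one] at this
    rw [this]
    have : ∀ x ∈ Ex w, ((F w).filter fun u => w x u = 1).card = 1 := fun x hx =>
      (Ex_facts H h hx).2.2
    rw [sum_congr rfl this]
    simp
  have h3 : ∑ u ∈ F w, (3 + if u ∈ Ex w then 1 else 0) = 3 * (F w).card + (Ex w).card := by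
    rw [sum_add_distrib, sum_const, smul_eq_mul, mul_comm, ← card_filter]
    congr 2
    ext u
    simp only [mem_filter]
    exact ⟨fun hh => hh.2, fun hh => ⟨(mem_filter.1 hh).1, hh⟩⟩
  have h4 := sum_le_sum fun u (hu : u ∈ F w) => local_ineq H h hu
  rw [h3, sum_add_distrib, h1, h2] at h4
  omega

end Pool.Agent.H78.Frus
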